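import Mathlib
import Pool.Agent.Helper78.LK.Goals

/-! # Project LK, packet CLS -/

set_option autoImplicit false

namespace Pool.Agent.Helper89.LK

open Pool.Agent.Helper50.KP Pool.Agent.Helper78.LK

/-- number of elements outside `P` -/
def cn (P A : Finset ℕ) : ℕ := (A.filter fun y => y ∉ P).card

theorem cn_ge (P A : Finset ℕ) : A.card ≤ cn P A + P.card := by
  have h1 : A ⊆ (A.filter fun y => y ∉ P) ∪ P := by
    intro y hy
    by_cases h : y ∈ P
    · exact Finset.mem_union_right _ h
    · exact Finset.mem_union_left _ (Finset.mem_filter.mpr ⟨hy, h⟩)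
  exact (Finset.card_le_card h1).trans (Finset.card_union_le _ _)

theorem cn_union (P : Finset ℕ) {A B : Finset ℕ} (h : Disjoint A B) :
    cn P (A ∪ B) = cn P A + cn P B := by
  unfold cn
  rw [Finset.filter_union, Finset.card_union_of_disjoint]
  exact Finset.disjoint_filter_filter h

theorem range_Ico {p q : ℕ} (h : p ≤ q) :
    Finset.range p ∪ Finset.Ico p q = Finset.range q ∧
      Disjoint (Finset.range p) (Finset.Ico p q) := by
  constructor
  · ext x
    simp only [Finset.mem_union, Finset.mem_range, Finset.mem_Ico]
    omega
  · rw [Finset.disjoint_left]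
    intro x
    simp only [Finset.mem_range, Finset.mem_Ico]
    omega

theorem cn_split (P : Finset ℕ) {p q : ℕ} (h : p ≤ q) :
    cn P (Finset.range q) = cn P (Finset.range p) + cn P (Finset.Ico p q) := by
  obtain ⟨h1, h2⟩ := range_Ico h
  rw [← h1, cn_union P h2]

theorem gCLS : CLS := by
  intro M P
  set F := cn P (Finset.range M) with hF
  refine ⟨fun x => cn P (Finset.range x) % F, ?_, ?_, ?_⟩
  · show cn P (Finset.range 0) % F = cn P (Finset.range M) % F
    rw [← hF, Nat.mod_self]
    simp [cn]
  · intro y hy
    show cn P (Finset.range y) % F = cn P (Finset.range (y + 1)) % F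
    congr 1
    unfold cn
    rw [Finset.range_add_one, Finset.filter_insert, if_neg (fun h => h hy)]
  · intro p q hpq hqM h1 h2 heq
    have heq' : cn P (Finset.range p) % F = cn P (Finset.range q) % F := heq
    have s1 := cn_split P hpq.le
    have s2 := cn_split P hqM.le
    have g1 := cn_ge P (Finset.Ico p q)
    rw [Nat.card_Ico] at g1
    have hd : Disjoint (Finset.range p) (Finset.Ico q M) := by
      rw [Finset.disjoint_left]
      intro x
      simp only [Finset.mem_range, Finset.mem_Ico]
      omega
    have g2 := cn_ge P (Finset.range p ∪ Finset.Ico q M)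
    rw [cn_union P hd, Finset.card_union_of_disjoint hd, Finset.card_range, Nat.card_Ico] at g2
    have hle : cn P (Finset.range p) ≤ cn P (Finset.range q) := by omega
    have hdvd : F ∣ cn P (Finset.range q) - cn P (Finset.range p) :=
      (Nat.modEq_iff_dvd' hle).mp heq'
    have h3 := Nat.le_of_dvd (by omega) hdvd
    omega

end Pool.Agent.Helper89.LK
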